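import Pool.Agent.Run7.h768.CS.Rel
import Pool.Agent.N101.CB.TopFin

set_option autoImplicit false

/-! # The weak monodromy conjecture for topological zeta functions: quadratic plus cubes suffices

Every polynomial `f ∈ ℂ[x_1, ..., x_n]` is stably equivalent to a polynomial `F` of the form
`q + ∑_{i ∈ T} z_i ^ 3`, where `q` is a polynomial of degree at most two and `T` is a set of variables: for some
`κ` there is a polynomial automorphism in `n + 2 κ` variables which fixes the origin and maps
`f(x) + t_1 w_1 + ... + t_κ w_κ` to `F` (`StabEq`, `QC`). The weak monodromy conjecture (the statement Q1) for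
the topological zeta function of `F` implies the one for `f`. So it holds for all polynomials if it holds
for the polynomials `q + ∑_{i ∈ T} z_i ^ 3`, `deg q ≤ 2`. Here the monodromy eigenvalues of `f` are the
`exp(2 π i α)`, `b_f(α) = 0` (Malgrange, Kashiwara; see the problem), so that Q1 says that for every pole `s₀`
there is an integer `k` with `b_f(s₀ + k) = 0`.
(For the Jacobian conjecture the reduction to cubic maps and then to cubic linear maps are theorems of Bass,
Connell and Wright and of Druzkowski.)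

Construction. The step is `f ↦ f + (t + v(x, w)) (w - u(x))`, which is the image of `f + t w` under
`w ↦ w - u(x)`, `t ↦ t + v(x, w)`. With `v = c (w + u)` it replaces a term `c u ^ 2` of `f` by
`c w ^ 2 + t w - t u`, and with `v = w ^ 2 + w u + u ^ 2` a term `u ^ 3` by `w ^ 3 + t w - t u`. By
`6 t u ^ 2 = (t + u) ^ 3 + (t - u) ^ 3 - 2 t ^ 3` the products `t u`, `u = ∑ c_j u_j ^ 2`, are treated in the same way.

Zeta functions and Bernstein-Sato polynomials. For the global topological zeta functions the formula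
`(s + κ) ((s + 1) Z_F(s) - 1) = s ((s + κ + 1) Z_f(s + κ) - 1)` holds; if `(s + 1) c(s)` satisfies a
functional equation of `f`, then `(s + 1) c(s + κ)` satisfies one of `F`; in particular all monodromy
eigenvalues of `F` are among those of `f`. -/

namespace Pool.Agent.Results.MP_a2a574_ag.QuadraticPlusCubes

open MvPolynomial Pool.Agent.W428.MOT Pool.Agent.N101.CB Pool.Agent.Run7.h768.CS
open Pool.Agent.H628R4.TP (IsBFunction)

/-- `R` is a (global) topological zeta function of `f`, for the ring homomorphism `χ : 𝓜 → ℂ` with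
`χ(𝕃) = 1`, for instance the Euler characteristic: the motivic zeta function
`zt f univ = ∑_N [X_N] 𝕃 ^ (-n N) T ^ N`, `X_N` the variety of the `N`-jets along which the order of `f` is `N`, is a
polynomial `Q` in the `F_(N, ν) = (𝕃 - 1) 𝕃 ^ (-ν) T ^ N / (1 - 𝕃 ^ (-ν) T ^ N)`, `N, ν ≥ 1`, with coefficients in
`𝓜`, and `R = (χ Q)(1 / (N s + ν))`. By the formula with an embedded resolution the usual topological
zeta function has this property. -/
def IsTopZeta (χ : MK ℂ →+* ℂ) {n : ℕ} (f : MvPolynomial (Fin n) ℂ) (R : RatFunc ℂ) : Prop :=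
  IsTop χ (zt f Set.univ) R

/-- The complex number `l` is a monodromy eigenvalue of `f`, by the theorem of Malgrange and Kashiwara:
every polynomial `b` with a functional equation `b(s) f ^ s = P(s) f ^ (s + 1)`, in particular the
Bernstein-Sato polynomial, has a root `α` with `exp(2 π i α) = l`. -/
def IsEigenvalue {n : ℕ} (f : MvPolynomial (Fin n) ℂ) (l : ℂ) : Prop :=
  ∀ b : Polynomial ℂ, IsBFunction f b →
    ∃ α : ℂ, b.eval α = 0 ∧ Complex.exp (2 * Real.pi * Complex.I * α) = l

/-- The weak monodromy conjecture for `f`: for every pole `s` of a topological zeta function of `f` the number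
`exp(2 π i s)` is a monodromy eigenvalue of `f`. -/
def Conj (χ : MK ℂ →+* ℂ) {n : ℕ} (f : MvPolynomial (Fin n) ℂ) : Prop :=
  ∀ R : RatFunc ℂ, IsTopZeta χ f R → ∀ s : ℂ, ¬ Reg R s →
    IsEigenvalue f (Complex.exp (2 * Real.pi * Complex.I * s))

theorem eig_iff {n : ℕ} (f : MvPolynomial (Fin n) ℂ) (s : ℂ) :
    IsEigenvalue f (Complex.exp (2 * Real.pi * Complex.I * s)) ↔
      ∀ b : Polynomial ℂ, IsBFunction f b → ∃ k : ℤ, b.eval (s + k) = 0 := by
  refine forall₂_congr fun b _ => ⟨?_, ?_⟩
  · rintro ⟨α, h1, h2⟩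
    rw [Complex.exp_eq_exp_iff_exists_int] at h2
    obtain ⟨k, hk⟩ := h2
    have h3 : (2 * Real.pi * Complex.I : ℂ) ≠ 0 := Complex.two_pi_I_ne_zero
    refine ⟨k, ?_⟩
    have h4 : α = s + k := by
      apply mul_left_cancel₀ h3
      rw [hk]
      ring
    rw [← h4]
    exact h1
  · rintro ⟨k, hk⟩
    refine ⟨s + k, hk, ?_⟩
    rw [Complex.exp_eq_exp_iff_exists_int]
    exact ⟨k, by ring⟩

theorem conj_iff (χ : MK ℂ →+* ℂ) {n : ℕ} (f : MvPolynomial (Fin n) ℂ) :
    Conj χ f ↔ TW χ f := by
  unfold Conj TW IsTopZeta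
  refine forall₂_congr fun R _ => forall₂_congr fun s _ => ?_
  rw [eig_iff]

/-- **Quadratic polynomials plus cubes of variables suffice.** Let `χ : 𝓜 → ℂ` be a ring homomorphism with
`χ(𝕃) = 1`.

First part: for every non-constant `f` in `n` variables there are `κ` and a non-constant `F` in
`m = n + 2 κ` variables, `F = q + ∑_{i ∈ T} z_i ^ 3` with `deg q ≤ 2` (`QC F`), such that
(1) `F` is the image of `f(x) + t_1 w_1 + ... + t_κ w_κ` under an automorphism of the polynomial ring which fixes
the origin (`StabEq f F κ`);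
(2) for every topological zeta function `R` of `f` there is a topological zeta function `R'` of `F` with
`(s + κ) ((s + 1) R'(s) - 1) = s ((s + κ + 1) R(s + κ) - 1)`, and if `s ≠ -1` is a pole of `R` then
`s - κ` is a pole of `R'`;
(3) the monodromy eigenvalues of `F` are among those of `f`;
(4) the weak monodromy conjecture for `F` implies the one for `f`.

Second part: the weak monodromy conjecture holds for all non-constant polynomials, in any number of
variables, if and only if it holds for those of the form `q + ∑_{i ∈ T} z_i ^ 3`, `deg q ≤ 2`. -/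
theorem result (χ : MK ℂ →+* ℂ) (hχ : χ ((Lu ℂ : (MK ℂ)ˣ) : MK ℂ) = 1) :
    (∀ {n : ℕ} (f : MvPolynomial (Fin n) ℂ), f.totalDegree ≠ 0 →
      ∃ (κ m : ℕ) (F : MvPolynomial (Fin m) ℂ), m = n + 2 * κ ∧ QC F ∧ F.totalDegree ≠ 0 ∧
        StabEq f F κ ∧
        (∀ R : RatFunc ℂ, IsTopZeta χ f R → ∃ R' : RatFunc ℂ, IsTopZeta χ F R' ∧
          (RatFunc.X + (κ : RatFunc ℂ)) * ((RatFunc.X + 1) * R' - 1) =
            RatFunc.X * ((RatFunc.X + (κ : RatFunc ℂ) + 1) * shR (κ : ℂ) R - 1) ∧
          ∀ s : ℂ, s ≠ -1 → ¬ Reg R s → ¬ Reg R' (s - κ)) ∧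
        (∀ l : ℂ, IsEigenvalue F l → IsEigenvalue f l) ∧
        (Conj χ F → Conj χ f)) ∧
    ((∀ (n : ℕ) (f : MvPolynomial (Fin n) ℂ), f.totalDegree ≠ 0 → Conj χ f) ↔
      ∀ (n : ℕ) (f : MvPolynomial (Fin n) ℂ), QC f → f.totalDegree ≠ 0 → Conj χ f) := by
  refine ⟨fun {n} f hf => ?_, fun h n f _ => h n f, fun h n f hf => ?_⟩
  · obtain ⟨κ, m, F, hm, hF, hs, hl, -⟩ := exists_qc f
    refine ⟨κ, m, F, hm, hF, hl.deg hf, hs, hl.top χ hχ, ?_, ?_⟩
    · intro l hl' b hb
      obtain ⟨h2, h3⟩ := hl.b hf b hb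
      obtain ⟨c, hc⟩ := exists_factor' h2
      obtain ⟨α, h4, h5⟩ := hl' _ (h3 c hc)
      rw [Polynomial.eval_mul] at h4
      rcases mul_eq_zero.1 h4 with h6 | h6
      · refine ⟨-1, h2, ?_⟩
        rw [Polynomial.eval_add, Polynomial.eval_X, Polynomial.eval_one] at h6
        rw [← h5, eq_neg_of_add_eq_zero_left h6]
      · refine ⟨α + κ, ?_, ?_⟩
        · rw [Polynomial.eval_comp, Polynomial.eval_add, Polynomial.eval_X, Polynomial.eval_C] at h6
          rw [hc, Polynomial.eval_mul, h6, mul_zero]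
        · rw [← h5, Complex.exp_eq_exp_iff_exists_int]
          exact ⟨κ, by push_cast; ring⟩
    · rw [conj_iff, conj_iff]
      exact tw_of hχ hf hl
  · obtain ⟨κ, m, F, -, hF, -, hl, -⟩ := exists_qc f
    have h1 := h m F hF (hl.deg hf)
    rw [conj_iff] at h1 ⊢
    exact tw_of hχ hf hl h1

end Pool.Agent.Results.MP_a2a574_ag.QuadraticPlusCubes
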